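import Pool.Agent.N332.GK.Defs
import Pool.Agent.N521.LS.Main3

set_option autoImplicit false

/-! Project GK (helper332), F1: main theorem for all `k ≥ 6`; after `N521/LS/Main5.lean` (helper521) -/

namespace Pool.Agent.N301.GK

open Finset Pool.Agent.H384R3.SPk Pool.Agent.N356.SP Pool.Agent.N332.GK Pool.Agent.N521.LS

/-- `ck k ^ k` -/
noncomputable def cx (k : ℕ) : ℝ := (2 * (2 * (k : ℝ) - 1)) ^ k / ((2 * k).choose k : ℝ)

theorem one_lt_cx {k : ℕ} (hk : 6 ≤ k) : 1 < cx k := by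
  have hk' : (6 : ℝ) ≤ k := by exact_mod_cast hk
  have h0 : (0 : ℝ) < ((2 * k).choose k : ℝ) := by
    exact_mod_cast Nat.choose_pos (by omega)
  have h1 : ((2 * k).choose k : ℝ) ≤ 4 ^ k := by
    have : (2 * k).choose k ≤ 4 ^ k := by
      calc (2 * k).choose k ≤ 2 ^ (2 * k) := Nat.choose_le_two_pow _ _
        _ = 4 ^ k := by rw [pow_mul]; norm_num
    exact_mod_cast this
  unfold cx
  rw [one_lt_div h0]
  refine h1.trans_lt ?_
  exact pow_lt_pow_left₀ (by linarith) (by norm_num) (by omega)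

theorem cx_pos {k : ℕ} (hk : 6 ≤ k) : 0 < cx k := by linarith [one_lt_cx hk]

theorem ck_eq (k : ℕ) : ck k = cx k ^ ((1 : ℝ) / k) := rfl

theorem ck_pos {k : ℕ} (hk : 6 ≤ k) : 0 < ck k := by
  rw [ck_eq]
  exact Real.rpow_pos_of_pos (cx_pos hk) _

theorem ck_powk {k : ℕ} (hk : 6 ≤ k) : ck k ^ k = cx k := by
  have hk' : (k : ℝ) ≠ 0 := by
    have : (0 : ℝ) < k := by exact_mod_cast (by omega : 0 < k)
    exact this.ne'
  rw [ck_eq, ← Real.rpow_natCast, ← Real.rpow_mul (cx_pos hk).le, one_div_mul_cancel hk',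
    Real.rpow_one]

theorem one_lt_ck {k : ℕ} (hk : 6 ≤ k) : 1 < ck k := by
  have hk' : (0 : ℝ) < k := by exact_mod_cast (by omega : 0 < k)
  rw [ck_eq]
  exact Real.one_lt_rpow (one_lt_cx hk) (by positivity)

/-- the hypothesis of the real inequality -/
def HRealk : Prop := ∀ {k n : ℕ}, 6 ≤ k → k ≤ n → ∀ {b : ℝ}, (n : ℝ) ^ b = ck k →
  RealOK n b (Bk k) (tk k)

/-- the hypothesis of splitting -/
def HSplitk : Prop := ∀ {k : ℕ}, 6 ≤ k → SplitOK k (Bk k) (tk k)

/-- one class of positive integers -/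
theorem mono_posk (main_gen : HMain) (HS : HSplitk) (HR : HRealk)
    (S_pow : HPow) (one_le_S : HOne) {k : ℕ} (hk : 6 ≤ k) {n : ℕ} (hn : k ≤ n) {β : ℝ}
    (hβ : cx k ≤ (n : ℝ) ^ β)
    (B : Finset ℤ) (hB : B.Nonempty) (hBp : ∀ b ∈ B, 0 < b) (hM : Mono B) :
    (B.card : ℝ) ^ ((k : ℝ) + β) ≤
      ((sumset k B).card : ℝ) * ((prodset fun _ : Fin n => B).card : ℝ) ^ β := by
  have hn3 : (6:ℝ) ≤ n := by exact_mod_cast hk.trans hn
  have hn0 : (0:ℝ) < n := by linarith
  have hk0 : (0:ℝ) < k := by exact_mod_cast (by omega : 0 < k)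
  have hlog : 0 < Real.log n := Real.log_pos (by linarith)
  have hlc : 0 < Real.log (ck k) := Real.log_pos (one_lt_ck hk)
  obtain ⟨b, hb⟩ : ∃ b, b = Real.log (ck k) / Real.log n := ⟨_, rfl⟩
  have hb0 : 0 < b := by rw [hb]; positivity
  have hnb : (n : ℝ) ^ b = ck k := by
    rw [Real.rpow_def_of_pos hn0, hb, mul_div_cancel₀ _ hlog.ne', Real.exp_log (ck_pos hk)]
  have hnkb : (n : ℝ) ^ ((k : ℝ) * b) = cx k := by
    rw [mul_comm, Real.rpow_mul hn0.le, hnb, Real.rpow_natCast, ck_powk hk]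
  have hle : (k : ℝ) * b ≤ β := by
    rw [← hnkb] at hβ
    exact (Real.rpow_le_rpow_left_iff (by linarith)).1 hβ
  have hS1 : 1 ≤ S k B := one_le_S (by omega) hB hBp
  have hS0 : 0 < S k B := by linarith
  have hcard : (1:ℝ) ≤ B.card := by exact_mod_cast hB.card_pos
  have hcard0 : (0:ℝ) < B.card := by linarith
  have hP : (B.card : ℝ) ≤ (prodset fun _ : Fin n => B).card := by
    exact_mod_cast card_le_prodset (by omega) (fun _ => B) (fun _ => hB) (fun _ => hBp) ⟨0, by omega⟩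
  have ht0 : 0 ≤ tk k := by
    unfold tk
    positivity
  have hm := main_gen (k := k) (n := n) (by omega) (by omega) hb0 ht0 (HS hk)
    (HR hk hn hnb) (fun _ => B) (fun _ => hB) (fun _ => hBp) (fun _ => hM)
  obtain ⟨P, hPd⟩ : ∃ P : ℝ, P = ((prodset fun _ : Fin n => B).card : ℝ) := ⟨_, rfl⟩
  rw [← hPd] at hm hP ⊢
  have hP1 : 1 ≤ P := hcard.trans hP
  have hP0 : 0 < P := by linarith
  rw [Finset.prod_const, Finset.card_univ, Fintype.card_fin] at hm
  have hx0 : 0 ≤ (B.card : ℝ) ^ (1 + b) / S k B ^ 2 := by positivity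
  rw [← Real.rpow_natCast, ← Real.rpow_mul hx0] at hm
  have e1 : 1 / ((n : ℝ) * b) * n = 1 / b := by field_simp
  rw [e1] at hm
  have h2 := Real.rpow_le_rpow (Real.rpow_nonneg hx0 _) hm hb0.le
  rw [← Real.rpow_mul hx0, one_div_mul_cancel hb0.ne', Real.rpow_one,
    div_le_iff₀ (by positivity)] at h2
  have h3 := pow_le_pow_left₀ (by positivity) h2 k
  have e2 : ((B.card : ℝ) ^ (1 + b)) ^ k = (B.card : ℝ) ^ ((k : ℝ) + k * b) := by
    rw [← Real.rpow_natCast, ← Real.rpow_mul hcard0.le]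
    congr 1
    ring
  have e3 : (P ^ b * S k B ^ 2) ^ k = S k B ^ (2 * k) * P ^ ((k : ℝ) * b) := by
    have : P ^ ((k : ℝ) * b) = (P ^ b) ^ k := by
      rw [← Real.rpow_natCast, ← Real.rpow_mul hP0.le]
      congr 1
      ring
    rw [this, mul_pow, ← pow_mul]
    ring
  rw [e2, e3] at h3
  have h4 := S_pow (k := k) (by omega) hB hBp
  have h5 : (B.card : ℝ) ^ ((k : ℝ) + k * b) ≤ ((sumset k B).card : ℝ) * P ^ ((k : ℝ) * b) :=
    h3.trans (mul_le_mul_of_nonneg_right h4 (by positivity))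
  have h6 : (B.card : ℝ) ^ (β - k * b) ≤ P ^ (β - k * b) :=
    Real.rpow_le_rpow hcard0.le hP (by linarith)
  have e4 : (B.card : ℝ) ^ ((k : ℝ) + β) =
      (B.card : ℝ) ^ ((k : ℝ) + k * b) * (B.card : ℝ) ^ (β - k * b) := by
    rw [← Real.rpow_add hcard0]
    congr 1
    ring
  have e5 : P ^ β = P ^ ((k : ℝ) * b) * P ^ (β - k * b) := by
    rw [← Real.rpow_add hP0]
    congr 1
    ring
  rw [e4, e5]
  calc _ ≤ (((sumset k B).card : ℝ) * P ^ ((k : ℝ) * b)) * P ^ (β - k * b) :=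
        mul_le_mul h5 h6 (by positivity) (by positivity)
    _ = _ := by ring

theorem beta_posk {k n : ℕ} (hk : 6 ≤ k) (hn : k ≤ n) {β : ℝ} (hβ : cx k ≤ (n : ℝ) ^ β) :
    0 < β := by
  by_contra h
  push Not at h
  have hn1 : (1:ℝ) ≤ n := by exact_mod_cast (by omega : 1 ≤ n)
  have := Real.rpow_le_one_of_one_le_of_nonpos hn1 h
  linarith [one_lt_cx hk]

/-- reduction to one class of positive integers -/
theorem corek (main_gen : HMain) (HS : HSplitk) (HR : HRealk)
    (exists_mono : HMono) (S_pow : HPow) (one_le_S : HOne) : ∃ K : ℝ, 1 ≤ K ∧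
      ∀ A : Finset ℤ, A.Nonempty → A ≠ {0} → ∃ B : Finset ℤ, B.Nonempty ∧ (∀ b ∈ B, 0 < b) ∧
      (∀ k : ℕ, (sumset k B).card ≤ (sumset k A).card) ∧
      (∀ n : ℕ, (prodset fun _ : Fin n => B).card ≤ (prodset fun _ : Fin n => A).card) ∧
      ∀ k : ℕ, 6 ≤ k → ∀ n : ℕ, k ≤ n → ∀ β : ℝ, cx k ≤ (n : ℝ) ^ β →
      (A.card : ℝ) ^ ((k : ℝ) + β) ≤ K ^ ((k : ℝ) + β) *
        (((sumset k B).card : ℝ) * ((prodset fun _ : Fin n => B).card : ℝ) ^ β) := by
  obtain ⟨K, hK0, hK⟩ := exists_mono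
  have hK1 : (1:ℝ) ≤ K := by exact_mod_cast hK0
  refine ⟨3 * K, by linarith, ?_⟩
  intro A hA h0
  obtain ⟨D, hD, hDp, hAD, hs, hp⟩ := Pool.Agent.H201R3.SPk.taskG A hA h0
  obtain ⟨B, hBD, hB, hM, hDB⟩ := hK D hD hDp
  refine ⟨B, hB, fun b hb => hDp b (hBD hb), fun k => ?_, fun n => ?_, ?_⟩
  · exact (Finset.card_le_card (Pool.Agent.H201R3.SPk.sumset_mono hBD k)).trans (hs k)
  · exact (Finset.card_le_card (Pool.Agent.H201R3.SPk.prodset_mono hBD n)).trans (hp n)
  intro k hk n hn β hβ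
  have hβ0 := beta_posk hk hn hβ
  have hm := mono_posk main_gen HS HR S_pow one_le_S hk hn hβ B hB
    (fun b hb => hDp b (hBD hb)) hM
  have h1 : (A.card : ℝ) ≤ 3 * K * B.card := by
    have : A.card ≤ 3 * K * B.card := by nlinarith
    exact_mod_cast this
  have h2 : (A.card : ℝ) ^ ((k : ℝ) + β) ≤ (3 * K * B.card) ^ ((k : ℝ) + β) :=
    Real.rpow_le_rpow (by positivity) h1 (by positivity)
  rw [Real.mul_rpow (by positivity) (by positivity)] at h2
  exact h2.trans (mul_le_mul_of_nonneg_left hm (by positivity))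

/-- F1 -/
theorem maink (main_gen : Pool.Agent.N521.LS.HMain)
    (HS : ∀ {k : ℕ}, 6 ≤ k → SplitOK k (Bk k) (tk k))
    (HR : ∀ {k n : ℕ}, 6 ≤ k → k ≤ n → ∀ {b : ℝ}, (n : ℝ) ^ b = ck k → RealOK n b (Bk k) (tk k))
    (exists_mono : Pool.Agent.N521.LS.HMono) (S_pow : Pool.Agent.N521.LS.HPow)
    (one_le_S : Pool.Agent.N521.LS.HOne) :
    ∃ K : ℝ, 1 ≤ K ∧ ∀ k : ℕ, 6 ≤ k → ∀ n : ℕ, k ≤ n → ∀ A : Finset ℤ, A.Nonempty →
      (∀ β : ℝ, (2 * (2 * (k : ℝ) - 1)) ^ k / ((2 * k).choose k : ℝ) ≤ (n : ℝ) ^ β →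
        (A.card : ℝ) ^ ((k : ℝ) + β) ≤ K ^ ((k : ℝ) + β) *
          (((sumset k A).card : ℝ) * ((prodset fun _ : Fin n => A).card : ℝ) ^ β)) ∧
      ((A.card : ℝ) / K) ^
          ((k * Real.log n + Real.log ((2 * (2 * (k : ℝ) - 1)) ^ k / ((2 * k).choose k : ℝ))) /
            (Real.log n + Real.log ((2 * (2 * (k : ℝ) - 1)) ^ k / ((2 * k).choose k : ℝ)))) ≤
        max ((sumset n A).card : ℝ) ((prodset fun _ : Fin n => A).card : ℝ) := by
  obtain ⟨K, hK1, hK⟩ := corek main_gen HS HR exists_mono S_pow one_le_S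
  have hK0 : 0 < K := by linarith
  refine ⟨K, hK1, ?_⟩
  intro k hk n hn A hA
  have ecx : (2 * (2 * (k : ℝ) - 1)) ^ k / ((2 * k).choose k : ℝ) = cx k := rfl
  rw [ecx]
  have hk0 : (0:ℝ) < k := by exact_mod_cast (by omega : 0 < k)
  constructor
  · intro β hβ
    have hβ0 := beta_posk hk hn hβ
    by_cases h0 : A = {0}
    · have h1 : (1:ℝ) ≤ (sumset k A).card := by exact_mod_cast card_pos_sum k hA
      have h2 : (1:ℝ) ≤ (prodset fun _ : Fin n => A).card := by exact_mod_cast card_pos_prod n hA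
      have h3 : (1:ℝ) ≤ ((prodset fun _ : Fin n => A).card : ℝ) ^ β :=
        Real.one_le_rpow h2 hβ0.le
      have h4 : (1:ℝ) ≤ K ^ ((k : ℝ) + β) := Real.one_le_rpow hK1 (by positivity)
      have h5 : (A.card : ℝ) ^ ((k : ℝ) + β) = 1 := by
        rw [h0, Finset.card_singleton, Nat.cast_one, Real.one_rpow]
      rw [h5]
      exact one_le_mul_of_one_le_of_one_le h4 (one_le_mul_of_one_le_of_one_le h1 h3)
    · obtain ⟨B, -, -, hs, hp, hB⟩ := hK A hA h0
      refine (hB k hk n hn β hβ).trans (mul_le_mul_of_nonneg_left ?_ (by positivity))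
      have h3 : ((sumset k B).card : ℝ) ≤ (sumset k A).card := by exact_mod_cast hs k
      have h4 : ((prodset fun _ : Fin n => B).card : ℝ) ≤ (prodset fun _ : Fin n => A).card := by
        exact_mod_cast hp n
      exact mul_le_mul h3 (Real.rpow_le_rpow (by positivity) h4 hβ0.le) (by positivity)
        (by positivity)
  · have hn3 : (6:ℝ) ≤ n := by exact_mod_cast hk.trans hn
    have hn0 : (0:ℝ) < n := by linarith
    have hlog : 0 < Real.log n := Real.log_pos (by linarith)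
    have hlk : 0 < Real.log (cx k) := Real.log_pos (one_lt_cx hk)
    obtain ⟨β, hβ⟩ : ∃ β, β = Real.log (cx k) / Real.log n := ⟨_, rfl⟩
    have hβ0 : 0 < β := by rw [hβ]; positivity
    have hcond : cx k ≤ (n : ℝ) ^ β := by
      rw [Real.rpow_def_of_pos hn0, hβ, mul_div_cancel₀ _ hlog.ne', Real.exp_log (cx_pos hk)]
    obtain ⟨X, hX⟩ : ∃ X : ℝ, X = max ((sumset n A).card : ℝ)
      ((prodset fun _ : Fin n => A).card : ℝ) := ⟨_, rfl⟩
    rw [← hX]
    have hX1 : (1:ℝ) ≤ X := by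
      rw [hX]
      exact le_max_of_le_left (by exact_mod_cast card_pos_sum n hA)
    have key : (A.card : ℝ) ^ ((k : ℝ) + β) ≤ K ^ ((k : ℝ) + β) * X ^ (1 + β) := by
      by_cases h0 : A = {0}
      · have h4 : (1:ℝ) ≤ K ^ ((k : ℝ) + β) := Real.one_le_rpow hK1 (by positivity)
        have h5 : (A.card : ℝ) ^ ((k : ℝ) + β) = 1 := by
          rw [h0, Finset.card_singleton, Nat.cast_one, Real.one_rpow]
        rw [h5]
        exact one_le_mul_of_one_le_of_one_le h4 (Real.one_le_rpow hX1 (by positivity))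
      · obtain ⟨B, hBn, hBp, hs, hp, hB⟩ := hK A hA h0
        refine (hB k hk n hn β hcond).trans (mul_le_mul_of_nonneg_left ?_ (by positivity))
        have h3 : ((sumset k B).card : ℝ) ≤ X := by
          rw [hX]
          refine le_trans ?_ (le_max_left _ _)
          exact_mod_cast ((Pool.Agent.H449R3.SPkH.taskH B hBn hBp k n hn).1.trans (hs n))
        have h4 : ((prodset fun _ : Fin n => B).card : ℝ) ≤ X := by
          rw [hX]
          refine le_trans ?_ (le_max_right _ _)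
          exact_mod_cast hp n
        calc _ ≤ X * X ^ β :=
              mul_le_mul h3 (Real.rpow_le_rpow (by positivity) h4 hβ0.le) (by positivity)
                (by linarith)
          _ = _ := by rw [Real.rpow_add (by linarith), Real.rpow_one]
    have hden : 0 < 1 + β := by positivity
    have hX0 : 0 ≤ X := by linarith
    have h9 : ((A.card : ℝ) / K) ^ ((k : ℝ) + β) ≤ X ^ (1 + β) := by
      rw [Real.div_rpow (by positivity) hK0.le, div_le_iff₀ (by positivity),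
        mul_comm (X ^ (1 + β))]
      exact key
    have h10 := Real.rpow_le_rpow (by positivity) h9 (show (0:ℝ) ≤ 1 / (1 + β) by positivity)
    rw [← Real.rpow_mul (by positivity), ← Real.rpow_mul hX0, mul_one_div_cancel hden.ne',
      Real.rpow_one] at h10
    have e3 : ((k : ℝ) + β) * (1 / (1 + β)) =
        (k * Real.log n + Real.log (cx k)) / (Real.log n + Real.log (cx k)) := by
      rw [hβ]
      field_simp
    rwa [e3] at h10

end Pool.Agent.N301.GK
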